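import Pool.Agent.H56.G3.TI

set_option autoImplicit false

namespace Pool.Agent.H30.G3

open Finset Pool.Agent.H6.N4D Pool.Agent.H93.EB Pool.Agent.H93.GS Pool.Agent.H56.G3

theorem pf_EB (hTWO : T_TWO) : T_EB := by
  classical
  intro P Lam Q N g hP hL hQ hQQ hSp
  have hP0 : 0 < P := by linarith
  set B : Finset ℕ := Q.filter (fun p : ℕ => ¬ ∀ i < g.k, ∀ j < g.k, i ≠ j →
    Lam / 2 * p / N ≤ nd (p * (g.a i - g.a j))) with hB
  set X : Finset (ℕ × ℕ) := range g.k ×ˢ range g.k with hX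
  -- the bad primes of a pair
  have hpair : ∀ x ∈ X, ∑ p ∈ B.filter (fun p : ℕ => x.1 ≠ x.2 ∧
      nd (p * (g.a x.1 - g.a x.2)) < Lam / 2 * p / N), 1 / (p : ℝ) ≤ 1 / P := by
    intro x hx
    rw [hX, mem_product, mem_range, mem_range] at hx
    set C := B.filter (fun p : ℕ => x.1 ≠ x.2 ∧
      nd (p * (g.a x.1 - g.a x.2)) < Lam / 2 * p / N) with hC
    have hmem : ∀ p ∈ C, p ∈ Q ∧ x.1 ≠ x.2 ∧
        nd (p * (g.a x.1 - g.a x.2)) < Lam / 2 * p / N := by
      intro p hp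
      rw [hC, mem_filter, hB, mem_filter] at hp
      exact ⟨hp.1.1, hp.2⟩
    have hcard : C.card ≤ 1 := by
      rw [card_le_one]
      intro p hp q hq
      by_contra hne
      obtain ⟨hpQ, hx12, hp2⟩ := hmem p hp
      obtain ⟨hqQ, -, hq2⟩ := hmem q hq
      obtain ⟨hpp, hPp, -⟩ := hQ p hpQ
      obtain ⟨hqp, hPq, -⟩ := hQ q hqQ
      have hpq := hQQ p hpQ q hqQ
      have hp0 : (0 : ℝ) < p := by exact_mod_cast hpp.pos
      have hq0 : (0 : ℝ) < q := by exact_mod_cast hqp.pos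
      have hN0 : (0 : ℝ) < N := lt_trans (by positivity) hpq
      have h1 : nd (p * (g.a x.1 - g.a x.2)) ≤ p * (Lam / 2 / N) := by
        refine hp2.le.trans (le_of_eq ?_); ring
      have h2 : nd (q * (g.a x.1 - g.a x.2)) ≤ q * (Lam / 2 / N) := by
        refine hq2.le.trans (le_of_eq ?_); ring
      have h3 : 2 * (p : ℝ) * q * (Lam / 2 / N) < 1 := by
        have h4 : 2 * (p : ℝ) * q * (Lam / 2 / N) = (Lam * p * q) / N := by
          field_simp
        rw [h4, div_lt_one hN0]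
        have : 0 < Lam * p * q := by positivity
        linarith
      have h5 := (hTWO p q _ _ hpp hqp hne h1 h2 h3).1
      have h6 := hSp x.1 hx.1 x.2 hx.2 hx12
      have h7 : Lam / 2 / N < Lam / N := by
        rw [div_lt_div_iff_of_pos_right hN0]; linarith
      linarith
    have hterm : ∀ p ∈ C, 1 / (p : ℝ) ≤ 1 / P := by
      intro p hp
      obtain ⟨-, hPp, -⟩ := hQ p (hmem p hp).1
      exact one_div_le_one_div_of_le hP0 hPp
    refine (sum_le_card_nsmul _ _ _ hterm).trans ?_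
    rw [nsmul_eq_mul]
    have h8 : (C.card : ℝ) ≤ 1 := by exact_mod_cast hcard
    have h9 : 0 < 1 / P := by positivity
    nlinarith
  -- every bad prime is bad for a pair
  have hle : ∑ p ∈ B, 1 / (p : ℝ) ≤ ∑ x ∈ X, ∑ p ∈ B.filter (fun p : ℕ => x.1 ≠ x.2 ∧
      nd (p * (g.a x.1 - g.a x.2)) < Lam / 2 * p / N), 1 / (p : ℝ) := by
    simp only [sum_filter]
    rw [sum_comm]
    refine sum_le_sum fun p hp => ?_
    have hp' := hp
    rw [hB, mem_filter] at hp
    obtain ⟨-, hbad⟩ := hp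
    push Not at hbad
    obtain ⟨i, hi, j, hj, hij, hnd⟩ := hbad
    have hmem : (i, j) ∈ X := by
      rw [hX, mem_product, mem_range, mem_range]; exact ⟨hi, hj⟩
    have h1 : (1 : ℝ) / p = if (i, j).1 ≠ (i, j).2 ∧
        nd (p * (g.a (i, j).1 - g.a (i, j).2)) < Lam / 2 * p / N then 1 / (p : ℝ) else 0 := by
      rw [if_pos ⟨hij, hnd⟩]
    refine h1.le.trans (single_le_sum (f := fun x : ℕ × ℕ => if x.1 ≠ x.2 ∧
        nd (p * (g.a x.1 - g.a x.2)) < Lam / 2 * p / N then 1 / (p : ℝ) else 0) ?_ hmem)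
    intro x _
    show 0 ≤ ite _ _ _
    split_ifs <;> positivity
  refine hle.trans ((sum_le_sum hpair).trans (le_of_eq ?_))
  rw [sum_const, hX, card_product, card_range, nsmul_eq_mul]
  push_cast
  ring

end Pool.Agent.H30.G3
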