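import Pool.Agent.H56.G3.TR

set_option autoImplicit false

namespace Pool.Agent.H30.G3

open Finset Pool.Agent.H6.N4D Pool.Agent.H93.EB Pool.Agent.H93.GS Pool.Agent.H56.G3

/-- the precisions; the index is `r - l` -/
private noncomputable def regL (Lam th : ℝ) : ℕ → ℝ
  | 0 => max Lam (16 / th ^ 2)
  | j + 1 => Lam + 3 * regL Lam th j

private theorem regL_ge (Lam th : ℝ) (hL : 0 < Lam) (h0 : 0 < th) (j : ℕ) :
    16 / th ^ 2 ≤ regL Lam th j := by
  induction j with
  | zero => exact le_max_right _ _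
  | succ j ih =>
    have h : 0 < 16 / th ^ 2 := by positivity
    show 16 / th ^ 2 ≤ Lam + 3 * regL Lam th j
    linarith

private theorem regL_pos (Lam th : ℝ) (hL : 0 < Lam) (h0 : 0 < th) (j : ℕ) :
    0 < regL Lam th j :=
  lt_of_lt_of_le (by positivity) (regL_ge Lam th hL h0 j)

private theorem regL_step (Lam th : ℝ) (hL : 0 < Lam) (h0 : 0 < th) (j : ℕ) :
    regL Lam th j ≤ regL Lam th (j + 1) := by
  have := regL_pos Lam th hL h0 j
  show regL Lam th j ≤ Lam + 3 * regL Lam th j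
  linarith

/-- a cover by few points -/
private theorem reg_cover (hRC : T_RC) (th : ℝ) (h0 : 0 < th) (h1 : th ≤ 1) (N n : ℕ)
    (hN : 1 ≤ N) (g : Ex) (F : ℕ → ℂ)
    (hF : (∑ m ∈ Ioc n (n + N), ‖F m‖ ^ 2) / N ≤ 3)
    (hs : ∀ i < g.k, g.c i ≠ 0 → th / 2 ≤ ‖cf N n F (g.a i)‖) :
    ∃ l ≤ r0 th, ∃ b : ℕ → ℝ, Cv g l b (16 / th ^ 2 / N) := by
  classical
  set P : ℕ → Prop := fun l => ∃ b : ℕ → ℝ,
    (∀ s < l, ∀ s' < l, s ≠ s' → 16 / th ^ 2 / N ≤ nd (b s - b s')) ∧
    (∀ s < l, th / 2 ≤ ‖cf N n F (b s)‖) with hP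
  have hP0 : P 0 := ⟨fun _ => 0, fun s hs => absurd hs (by omega), fun s hs => absurd hs (by omega)⟩
  have hbd : ∀ l, P l → l ≤ r0 th := by
    rintro l ⟨b, hb1, hb2⟩
    have h2 := hRC th F N n l b h0 h1 hN hF hb1 hb2
    have h3 : (l : ℝ) ≤ (r0 th : ℝ) := h2.trans (Nat.le_ceil _)
    exact_mod_cast h3
  set l := Nat.findGreatest P (r0 th) with hl
  have hPl : P l := Nat.findGreatest_spec (Nat.zero_le _) hP0
  obtain ⟨b, hb1, hb2⟩ := hPl
  refine ⟨l, Nat.findGreatest_le _, b, fun i hi hci => ?_⟩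
  by_contra hcon
  push Not at hcon
  have hnew : P (l + 1) := by
    refine ⟨fun t => if t = l then g.a i else b t, fun s hs1 s' hs2 hne => ?_, fun s hs1 => ?_⟩
    · by_cases e1 : s = l
      · by_cases e2 : s' = l
        · exact absurd (e1.trans e2.symm) hne
        · simp only [e1, e2, if_true, if_false]
          exact (hcon s' (by omega)).le
      · by_cases e2 : s' = l
        · simp only [e1, e2, if_true, if_false]
          rw [nd_sub_comm]
          exact (hcon s (by omega)).le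
        · simp only [e1, e2, if_false]
          exact hb1 s (by omega) s' (by omega) hne
    · by_cases e1 : s = l
      · simp only [e1, if_true]
        exact hs i hi hci
      · simp only [e1, if_false]
        exact hb2 s (by omega)
  have h5 := hbd _ hnew
  have h6 : l + 1 ≤ Nat.findGreatest P (r0 th) := Nat.le_findGreatest h5 hnew
  omega

private theorem Cv_mono (g : Ex) (l : ℕ) (b : ℕ → ℝ) (r r' : ℝ) (h : r ≤ r')
    (hc : Cv g l b r) : Cv g l b r' := fun i hi hci => by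
  obtain ⟨s, hs, hb⟩ := hc i hi hci
  exact ⟨s, hs, hb.trans h⟩

/-- two points which are close are replaced by one -/
private theorem reg_drop (g : Ex) (l : ℕ) (b : ℕ → ℝ) (r R : ℝ) (hrR : r ≤ R)
    (hc : Cv g (l + 1) b r) (s s' : ℕ) (hs : s < l + 1) (hs' : s' < l + 1) (hne : s ≠ s')
    (hnd : nd (b s - b s') ≤ R - r) : ∃ b' : ℕ → ℝ, Cv g l b' R := by
  classical
  refine ⟨fun t => if t = s' then b l else b t, fun i hi hci => ?_⟩
  obtain ⟨u, hu, hb⟩ := hc i hi hci
  -- the position of an old point different from `s'`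
  have pos : ∀ v < l + 1, v ≠ s' → ∃ t < l, (if t = s' then b l else b t) = b v := by
    intro v hv hvs
    by_cases e : v = l
    · refine ⟨s', by omega, by simp [e]⟩
    · exact ⟨v, by omega, by simp [hvs]⟩
  by_cases e : u = s'
  · obtain ⟨t, ht, htb⟩ := pos s hs hne
    refine ⟨t, ht, ?_⟩
    show nd (g.a i - (if t = s' then b l else b t)) ≤ R
    rw [htb]
    have h1 := nd_tri (g.a i) (b s') (b s)
    rw [e] at hb
    rw [nd_sub_comm (b s') (b s)] at h1
    linarith
  · obtain ⟨t, ht, htb⟩ := pos u hu e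
    refine ⟨t, ht, ?_⟩
    show nd (g.a i - (if t = s' then b l else b t)) ≤ R
    rw [htb]
    linarith

theorem pf_REG (hRA : T_RA) (hRC : T_RC) (hRX : T_RX) : T_REG := by
  classical
  intro th Lam κ h0 h1 hL hκ
  set r := r0 th with hr
  have key : ∀ j : ℕ, ∃ (δ : ℝ) (P₀ : ℕ), 0 < δ ∧ ∀ (lam : ℕ → ℝ) (M N n l : ℕ) (g : Ex)
      (b : ℕ → ℝ), B1 lam → 1 ≤ M → P₀ * M ≤ N →
      sl N n (En th lam 1 M) - En th lam 1 N n ≤ δ →
      df th lam 1 N n g ≤ δ → l ≤ r → Cv g l b (regL Lam th j / N) →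
      ∃ g' : Ex, g'.k = l ∧ (∀ s < l, nd (g'.a s - b s) ≤ regL Lam th j / N) ∧
        df th lam 1 N n g' ≤ κ := fun j =>
    hRX th (regL Lam th j) κ r h0 h1 (regL_pos Lam th hL h0 j) hκ
  choose D P hD hX using key
  have hne : (range (r + 1)).Nonempty := ⟨0, by simp⟩
  refine ⟨(range (r + 1)).inf' hne D, (range (r + 1)).sup P + 1, ?_, ?_⟩
  · rw [Finset.lt_inf'_iff]
    exact fun j _ => hD j
  intro lam M N n hl hM hPN hsl
  have hN : 1 ≤ N := by
    have : 1 * 1 ≤ ((range (r + 1)).sup P + 1) * M := Nat.mul_le_mul (by omega) hM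
    omega
  have hN0 : (0 : ℝ) < N := by exact_mod_cast hN
  set δ := (range (r + 1)).inf' hne D with hδ
  have hδ0 : 0 < δ := by
    rw [hδ, Finset.lt_inf'_iff]
    exact fun j _ => hD j
  obtain ⟨g, F, hg, hF, hvis⟩ := hRA th δ h0 h1 hδ0 lam N n hl hN
  obtain ⟨l0, hl0, b0, hb0⟩ := reg_cover hRC th h0 h1 N n hN g F hF hvis
  have hex : ∃ l, l ≤ r ∧ ∃ b : ℕ → ℝ, Cv g l b (regL Lam th (r - l) / N) :=
    ⟨l0, hl0, b0, Cv_mono g l0 b0 _ _
      (div_le_div_of_nonneg_right (regL_ge Lam th hL h0 _) hN0.le) hb0⟩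
  obtain ⟨hlr, b, hb⟩ := Nat.find_spec hex
  set l := Nat.find hex with hldef
  have hsep : ∀ s < l, ∀ s' < l, s ≠ s' →
      (Lam + 2 * regL Lam th (r - l)) / N ≤ nd (b s - b s') := by
    intro s hs s' hs' hss
    by_contra hcon
    push Not at hcon
    obtain ⟨l', hl'⟩ : ∃ l', l = l' + 1 := ⟨l - 1, by omega⟩
    have e1 : r - l' = (r - l) + 1 := by omega
    have h3 : regL Lam th (r - l') = Lam + 3 * regL Lam th (r - l) := by rw [e1]; rfl
    have h4 : ∃ b' : ℕ → ℝ, Cv g l' b' (regL Lam th (r - l') / N) := by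
      rw [hl'] at hs hs'
      have hb' : Cv g (l' + 1) b (regL Lam th (r - l) / N) := by
        rw [← hl']; exact hb
      refine reg_drop g l' b _ _ ?_ hb' s s' hs hs' hss ?_
      · refine div_le_div_of_nonneg_right ?_ hN0.le
        rw [e1]; exact regL_step Lam th hL h0 _
      · rw [h3, ← sub_div]
        refine hcon.le.trans (le_of_eq ?_)
        congr 1; ring
    have h5 := Nat.find_min hex (m := l') (by omega)
    exact h5 ⟨by omega, h4⟩
  have hj : r - l ∈ range (r + 1) := by simp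
  have hδj : δ ≤ D (r - l) := Finset.inf'_le _ hj
  have hPj : P (r - l) * M ≤ N := by
    refine le_trans (Nat.mul_le_mul_right _ ?_) hPN
    exact (Finset.le_sup (f := P) hj).trans (Nat.le_succ _)
  obtain ⟨g', hk, hg', hdf⟩ := hX (r - l) lam M N n l g b hl hM hPj (hsl.trans hδj)
    (hg.trans hδj) hlr hb
  refine ⟨g', hk ▸ hlr, fun i hi j hj' hij => ?_, hdf⟩
  rw [hk] at hi hj'
  have h6 := hsep i hi j hj' hij
  have h7 := hg' i hi
  have h8 := hg' j hj'
  have h9 := nd_tri (b i) (g'.a i) (b j)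
  have h10 := nd_tri (g'.a i) (g'.a j) (b j)
  rw [nd_sub_comm (b i) (g'.a i)] at h9
  have h11 : (Lam + 2 * regL Lam th (r - l)) / N = Lam / N + 2 * (regL Lam th (r - l) / N) := by
    ring
  rw [h11] at h6
  linarith

end Pool.Agent.H30.G3
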