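import Pool.Agent.H56.G3.TR

set_option autoImplicit false

namespace Pool.Agent.H30.G3

open Finset Pool.Agent.H6.N4D Pool.Agent.H93.EB Pool.Agent.H93.GS Pool.Agent.H56.G3

/-- the mean over a window -/
private noncomputable def rlm (F : ℕ → ℝ) (N n : ℕ) : ℝ := (∑ m ∈ Ioc n (n + N), F m) / N

private theorem rl_J (th : ℝ) (lam : ℕ → ℝ) (N n : ℕ) (g : Ex) :
    J th lam 1 N n g = rlm (jj lam g) N n - 2 * th * g.nm := by
  unfold J ar rlm jj
  simp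

private theorem rl_sum_le (F : ℕ → ℝ) (b : ℝ) (hF : ∀ m, |F m| ≤ b) (N n : ℕ) :
    |∑ m ∈ Ioc n (n + N), F m| ≤ N * b := by
  refine (abs_sum_le_sum_abs _ _).trans ?_
  refine (sum_le_sum fun m _ => hF m).trans ?_
  simp

private theorem rl_A (F : ℕ → ℝ) (b : ℝ) (hF : ∀ m, |F m| ≤ b) (N n : ℕ) (hN : 1 ≤ N) :
    |rlm F (N + 1) n - rlm F N n| ≤ 2 * b / N := by
  have hN0 : (0 : ℝ) < N := by exact_mod_cast hN
  have hb : 0 ≤ b := (abs_nonneg _).trans (hF 0)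
  unfold rlm
  rw [← add_assoc n N 1, sum_Ioc_succ_top (by omega)]
  set S := ∑ m ∈ Ioc n (n + N), F m with hS
  have h1 : |S| ≤ N * b := rl_sum_le F b hF N n
  have h2 : |F (n + N + 1)| ≤ b := hF _
  have h3 : (S + F (n + N + 1)) / ((N + 1 : ℕ) : ℝ) - S / N =
      (N * F (n + N + 1) - S) / (N * (N + 1)) := by
    push_cast
    field_simp
    ring
  rw [h3, abs_div, abs_of_pos (by positivity : (0 : ℝ) < N * (N + 1))]
  rw [div_le_div_iff₀ (by positivity) hN0]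
  have h4 : |N * F (n + N + 1) - S| ≤ 2 * (N * b) := by
    refine (abs_sub _ _).trans ?_
    rw [abs_mul, abs_of_pos hN0]
    nlinarith [mul_le_mul_of_nonneg_left h2 hN0.le]
  nlinarith [mul_le_mul_of_nonneg_right h4 hN0.le, mul_nonneg hb hN0.le,
    mul_nonneg (mul_nonneg hb hN0.le) hN0.le]

private theorem rl_B (F : ℕ → ℝ) (b : ℝ) (hF : ∀ m, |F m| ≤ b) (N n : ℕ) (hN : 1 ≤ N) :
    |rlm F N (n + 1) - rlm F N n| ≤ 2 * b / N := by
  have hN0 : (0 : ℝ) < N := by exact_mod_cast hN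
  unfold rlm
  have h1 : ∑ m ∈ Ioc n (n + N + 1), F m = ∑ m ∈ Ioc n (n + N), F m + F (n + N + 1) :=
    sum_Ioc_succ_top (by omega) _
  have h2 : ∑ m ∈ Ioc n (n + 1), F m + ∑ m ∈ Ioc (n + 1) (n + N + 1), F m =
      ∑ m ∈ Ioc n (n + N + 1), F m := sum_Ioc_consecutive F (by omega) (by omega)
  have h3 : ∑ m ∈ Ioc n (n + 1), F m = F (n + 1) := by
    rw [sum_Ioc_succ_top (by omega)]; simp
  have e : n + 1 + N = n + N + 1 := by omega
  rw [e, ← sub_div, abs_div, abs_of_pos hN0]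
  refine div_le_div_of_nonneg_right ?_ hN0.le
  have h4 : ∑ m ∈ Ioc (n + 1) (n + N + 1), F m - ∑ m ∈ Ioc n (n + N), F m =
      F (n + N + 1) - F (n + 1) := by linarith
  rw [h4]
  refine (abs_sub _ _).trans ?_
  linarith [hF (n + N + 1), hF (n + 1)]

private theorem rl_half (hRB : T_RB) (th : ℝ) (lam : ℕ → ℝ) (N N1 n1 N2 n2 : ℕ) (h0 : 0 < th)
    (h1 : th ≤ 1) (hl : B1 lam) (hN1 : 1 ≤ N1) (hN2 : 1 ≤ N2) (hN : 1 ≤ N)
    (H : ∀ (F : ℕ → ℝ) (b : ℝ), (∀ m, |F m| ≤ b) → |rlm F N1 n1 - rlm F N2 n2| ≤ 2 * b / N) :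
    En th lam 1 N1 n1 - En th lam 1 N2 n2 ≤ 20 / th ^ 2 / N := by
  have hN0 : (0 : ℝ) < N := by exact_mod_cast hN
  obtain ⟨-, -, -, -, hε, hnm, hb⟩ := hRB th lam 1 N1 n1 h0 hl le_rfl hN1
  obtain ⟨-, -, -, hdf, -, -, -⟩ := hRB th lam 1 N2 n2 h0 hl le_rfl hN2
  refine le_of_forall_pos_le_add fun ε hεp => ?_
  obtain ⟨g, hg1, hg2⟩ := hε (min ε 1) (lt_min hεp one_pos)
  have hg3 : g.nm ≤ 2 / th := hnm g hN1 (by linarith [min_le_right ε 1])
  have hnn : 0 ≤ g.nm := by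
    unfold Ex.nm; exact sum_nonneg fun _ _ => norm_nonneg _
  have hg4 := H (jj lam g) (2 * g.nm + g.nm ^ 2) (fun m => (hb g m).2)
  have hg5 := hdf g
  unfold df at hg1 hg5
  rw [rl_J] at hg1 hg5
  have h5 : 2 * g.nm + g.nm ^ 2 ≤ 8 / th ^ 2 := by
    have h6 : g.nm * th ≤ 2 := by rwa [le_div_iff₀ h0] at hg3
    rw [le_div_iff₀ (by positivity)]
    nlinarith [mul_nonneg hnn h0.le, mul_nonneg hnn (sub_nonneg.2 h1)]
  have h7 : 2 * (2 * g.nm + g.nm ^ 2) / N ≤ 20 / th ^ 2 / N := by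
    refine div_le_div_of_nonneg_right ?_ hN0.le
    have : (8 : ℝ) / th ^ 2 * 2 ≤ 20 / th ^ 2 := by
      rw [div_mul_eq_mul_div]
      exact div_le_div_of_nonneg_right (by norm_num) (by positivity)
    linarith
  have h8 := (abs_le.1 hg4).2
  linarith [min_le_left ε 1]

theorem pf_RL (hRB : T_RB) : T_RL := by
  intro th lam N n h0 h1 hl hN
  refine ⟨abs_le.2 ⟨?_, ?_⟩, abs_le.2 ⟨?_, ?_⟩⟩
  · have := rl_half hRB th lam N N n (N + 1) n h0 h1 hl hN (by omega) hN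
      (fun F b hF => by rw [abs_sub_comm]; exact rl_A F b hF N n hN)
    linarith
  · exact rl_half hRB th lam N (N + 1) n N n h0 h1 hl (by omega) hN hN
      (fun F b hF => rl_A F b hF N n hN)
  · have := rl_half hRB th lam N N n N (n + 1) h0 h1 hl hN hN hN
      (fun F b hF => by rw [abs_sub_comm]; exact rl_B F b hF N n hN)
    linarith
  · exact rl_half hRB th lam N N (n + 1) N n h0 h1 hl hN hN hN
      (fun F b hF => rl_B F b hF N n hN)

end Pool.Agent.H30.G3
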